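import Pool.Agent.R111.Klarner.Comp

/-!
# Klarner's constant is the limit of a computable decreasing sequence of rational numbers

Let `t n` be the number of fixed `n`-ominoes.  Every `n`-omino with `n ≥ 2` can be cut into two
polyominoes of at least `(n - 1) / 4` cells each.  Hence `w(m) = 256 m³ t(m)` satisfies
`n w(n) ≤ ∑ w(m) w(n - m)`, the sum over `m` with `4 m ≥ n - 1` and `4 (n - m) ≥ n - 1`; so if
`w(m) ≤ x ^ m` for `N ≤ m ≤ 4 N`, then `w(m) ≤ x ^ m` for all `m ≥ N` and `λ ≤ x`.  On the other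
hand `w(m) ^ (1 / m)` converges to `λ`.
-/

set_option autoImplicit false

namespace Pool.Agent.Results.MP_fc5d3b_co.ComputableUpperBounds

open Filter Topology Pool.Agent.R111.Klarner

theorem primrec_pow : Primrec₂ (fun x y : ℕ => x ^ y) := Primrec₂.unpaired'.1 Nat.Primrec.pow

theorem primrec_ineq : PrimrecRel (fun (m : ℕ) (x : ℕ × ℕ × ℕ) =>
    x.1 ≤ m → 256 * m ^ 3 * t m * (2 ^ x.2.1) ^ m ≤ x.2.2 ^ m) := by
  have fm : Primrec fun y : ℕ × ℕ × ℕ × ℕ => y.1 := Primrec.fst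
  have fN : Primrec fun y : ℕ × ℕ × ℕ × ℕ => y.2.1 := Primrec.fst.comp Primrec.snd
  have fn : Primrec fun y : ℕ × ℕ × ℕ × ℕ => y.2.2.1 :=
    Primrec.fst.comp (Primrec.snd.comp Primrec.snd)
  have fk : Primrec fun y : ℕ × ℕ × ℕ × ℕ => y.2.2.2 :=
    Primrec.snd.comp (Primrec.snd.comp Primrec.snd)
  have h1 : Primrec fun y : ℕ × ℕ × ℕ × ℕ => 256 * y.1 ^ 3 * t y.1 * (2 ^ y.2.2.1) ^ y.1 :=
    Primrec.nat_mul.comp (Primrec.nat_mul.comp (Primrec.nat_mul.comp (Primrec.const 256)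
      (primrec_pow.comp fm (Primrec.const 3))) (primrec_t.comp fm))
      (primrec_pow.comp (primrec_pow.comp (Primrec.const 2) fn) fm)
  have h2 : Primrec fun y : ℕ × ℕ × ℕ × ℕ => y.2.2.2 ^ y.1 := primrec_pow.comp fk fm
  have h3 : PrimrecPred fun y : ℕ × ℕ × ℕ × ℕ => ¬ y.2.1 ≤ y.1 ∨
      256 * y.1 ^ 3 * t y.1 * (2 ^ y.2.2.1) ^ y.1 ≤ y.2.2.2 ^ y.1 :=
    (PrimrecPred.not (Primrec.nat_le.comp fN fm)).or (Primrec.nat_le.comp h1 h2)
  exact h3.of_eq (fun y => imp_iff_not_or.symm)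

theorem primrec_cert : PrimrecRel (Cert t) := by
  have h1 : PrimrecRel (fun (L : List ℕ) (x : ℕ × ℕ × ℕ) => ∀ m ∈ L,
      x.1 ≤ m → 256 * m ^ 3 * t m * (2 ^ x.2.1) ^ m ≤ x.2.2 ^ m) :=
    PrimrecRel.forall_mem_list primrec_ineq
  have h2 : PrimrecRel (fun (N : ℕ) (x : ℕ × ℕ) => 1 ≤ N ∧ ∀ m ∈ List.range (4 * N + 1),
      N ≤ m → 256 * m ^ 3 * t m * (2 ^ x.1) ^ m ≤ x.2 ^ m) := by
    apply PrimrecPred.and (Primrec.nat_le.comp (Primrec.const 1) Primrec.fst)
    refine h1.comp (f := fun y : ℕ × ℕ × ℕ => List.range (4 * y.1 + 1))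
      (g := fun y : ℕ × ℕ × ℕ => y) ?_ Primrec.id
    exact Primrec.list_range.comp (Primrec.succ.comp (Primrec.nat_mul.comp (Primrec.const 4)
      Primrec.fst))
  have h3 : PrimrecRel (fun (L : List ℕ) (x : ℕ × ℕ) => ∃ N ∈ L, 1 ≤ N ∧
      ∀ m ∈ List.range (4 * N + 1), N ≤ m → 256 * m ^ 3 * t m * (2 ^ x.1) ^ m ≤ x.2 ^ m) :=
    PrimrecRel.exists_mem_list h2
  have h4 : PrimrecPred (fun x : ℕ × ℕ => ∃ N ∈ List.range (x.1 + 2), 1 ≤ N ∧
      ∀ m ∈ List.range (4 * N + 1), N ≤ m → 256 * m ^ 3 * t m * (2 ^ x.1) ^ m ≤ x.2 ^ m) := by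
    refine h3.comp (f := fun x : ℕ × ℕ => List.range (x.1 + 2)) (g := fun x => x) ?_ Primrec.id
    exact Primrec.list_range.comp (Primrec.succ.comp (Primrec.succ.comp Primrec.fst))
  refine h4.of_eq ?_
  rintro ⟨n, k⟩
  unfold Cert
  constructor
  · rintro ⟨N, hN, h1, h2⟩
    rw [List.mem_range] at hN
    exact ⟨N, h1, by simp only at hN; omega,
      fun m h3 h4 => h2 m (List.mem_range.2 (by omega)) h3⟩
  · rintro ⟨N, h1, hN, h2⟩
    exact ⟨N, List.mem_range.2 (by simp only; omega), h1,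
      fun m h3 h4 => h2 m h4 (by rw [List.mem_range] at h3; omega)⟩

theorem computable_best : Computable (best t) := by
  classical
  have h1 : Primrec₂ (fun n k : ℕ => decide (Cert t n k)) := by
    have := primrec_cert.decide
    exact this.of_eq (fun a b => by congr)
  have h2 : Partrec₂ (fun n k : ℕ => (Part.some (decide (Cert t n k)) : Part Bool)) :=
    h1.to_comp
  have h3 := Partrec.rfind h2
  refine h3.of_eq ?_
  intro n
  rw [PFun.coe_val, Part.eq_some_iff, Nat.mem_rfind]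
  constructor
  · simpa using best_spec t n
  · intro m hm
    have h4 : ¬ Cert t n m := fun h => absurd (best_le h) (by omega)
    simpa using h4

/-- The limit `λ` of `t(n) ^ (1/n)` exists, the number `t(n)` of fixed `n`-ominoes is a computable
function of `n`, and the rational numbers `β_n = (K_n + 1) / 2 ^ n`, where `K_n` is the least `k`
such that for some `1 ≤ N ≤ n + 1` one has `256 m³ t(m) (2 ^ n) ^ m ≤ k ^ m` for all
`N ≤ m ≤ 4 N`, form a strictly decreasing sequence with computable numerators and denominators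
which converges to `λ`. -/
theorem result : ∃ lam : ℝ,
    Tendsto (fun n : ℕ => (t n : ℝ) ^ (1 / (n : ℝ))) atTop (𝓝 lam) ∧
    Computable t ∧
    Computable (fun n => best t n + 1) ∧ Computable (fun n : ℕ => 2 ^ n) ∧
    (∀ n, beta t n = ((best t n + 1 : ℕ) : ℚ) / ((2 ^ n : ℕ) : ℚ)) ∧
    StrictAnti (beta t) ∧
    Tendsto (fun n => (beta t n : ℝ)) atTop (𝓝 lam) := by
  obtain ⟨lam, hpos, hlim⟩ := growth_t.exists_lim
  refine ⟨lam, hlim, primrec_t.to_comp, ?_, ?_, fun _ => rfl, beta_strictAnti t,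
    growth_t.tendsto_beta hpos hlim⟩
  · exact (Primrec.succ.to_comp).comp computable_best
  · exact (primrec_pow.comp (Primrec.const 2) Primrec.id).to_comp

end Pool.Agent.Results.MP_fc5d3b_co.ComputableUpperBounds
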